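import Pool.Agent.W289.CG.Stm

/-!
# Project TR2: 2-rank at least `n + r₂ - 1` in every signature of degree `n`: exact statements

`f = ∏ (X - a i) = g ^ 2 + r`, `2 n` distinct integers `a i`, `g` monic of degree `n`, `deg r < n`; `K = ℚ(θ)`,
`(M g(θ) + c) ^ 2 = M ^ 2 f(θ)`, i.e. `hh g r c M (θ) = 0`.
-/

set_option autoImplicit false

namespace Pool.Agent.J4H20.TR

open Polynomial NumberField nonZeroDivisors Pool.Agent.W289.CG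

/-- the data -/
structure Dat2 (n k : ℕ) where
  a : Fin (k + 2) → ℤ
  g : ℤ[X]
  r : ℤ[X]
  hk : k + 2 = 2 * n
  ha : Function.Injective a
  hg : g.Monic
  hgn : g.natDegree = n
  hr : r.degree < n
  hf : ∏ i, (X - C (a i)) = g ^ 2 + r

/-- `(M g + c) ^ 2 - M ^ 2 (g ^ 2 + r)` -/
noncomputable def hh (g r : ℤ[X]) (c M : ℤ) : ℤ[X] := C (2 * c * M) * g - C (M ^ 2) * r + C (c ^ 2)

/-- a test for the index `i`: exactly the numbers `x - a j` with `j = i` and `j = k` are not squares modulo `q` -/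
structure Tst2 {n k : ℕ} (D : Dat2 n k) (c M : ℤ) (i : Fin k) (q : ℕ) (x : ℤ) : Prop where
  prime : q.Prime
  one : q % 4 = 1
  root : (q : ℤ) ∣ (hh D.g D.r c M).eval x
  simple : ¬ (q : ℤ) ∣ (derivative (hh D.g D.r c M)).eval x
  ne : ∀ j, ((x - D.a j : ℤ) : ZMod q) ≠ 0
  sym : ∀ j, IsSquare ((x - D.a j : ℤ) : ZMod q) ↔ ¬ (j = i.castSucc.castSucc ∨ j = (Fin.last k).castSucc)

/-- (IRR) reversed Eisenstein; adapt `W505/CG/Irr.lean` (`irr_of_reverse` etc. are general); `h` need not be primitive: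
pass to the primitive part (`q` does not divide the content as `q ∤ h.coeff 0`), or argue over `ℚ` -/
def S_IRR : Prop :=
  ∀ (h : ℤ[X]) (n q : ℕ), 1 ≤ n → h.natDegree = n → q.Prime → (∀ j, 1 ≤ j → (q : ℤ) ∣ h.coeff j) →
    ¬ (q : ℤ) ^ 2 ∣ h.coeff n → ¬ (q : ℤ) ∣ h.coeff 0 → Irreducible (h.map (Int.castRingHom ℚ))

/-- (DISC) `q` is ramified; adapt `W505/CG/Disc.lean` (`y = u / θ`, `u = h.coeff 0`,
`y ^ n + ∑_{1 ≤ i ≤ n} h_i u ^ (i - 1) y ^ (n - i) = 0`) -/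
def S_DISC : Prop :=
  ∀ (K : Type) [Field K] [NumberField K] (h : ℤ[X]) (n q : ℕ) (θ : K), 2 ≤ n → h.natDegree = n →
    Module.finrank ℚ K = n → q.Prime → (∀ j, 1 ≤ j → (q : ℤ) ∣ h.coeff j) →
    ¬ (q : ℤ) ^ 2 ∣ h.coeff n → ¬ (q : ℤ) ∣ h.coeff 0 → aeval θ h = 0 → (q : ℤ) ∣ discr K

/-- (EMB) Hensel; the proof in `W290/CG/Emb.lean` works word for word with `F := h` -/
def S_EMB : Prop :=
  ∀ (K : Type) [Field K] [NumberField K] (θ : K) (h : ℤ[X]) (n q : ℕ) [Fact q.Prime] (x : ℤ), 1 ≤ n →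
    h.natDegree = n → Module.finrank ℚ K = n → IntermediateField.adjoin ℚ {θ} = ⊤ → aeval θ h = 0 →
    (q : ℤ) ∣ h.eval x → ¬ (q : ℤ) ∣ (derivative h).eval x →
    ∃ (φ : K →+* ℚ_[q]) (z : ℤ_[q]), φ θ = (z : ℚ_[q]) ∧ PadicInt.toZMod z = (x : ZMod q)

/-- (LOC) all ratios have even valuations; cf. `W405/CG/Loc.lean`.  If `v M < 1` then `v θ > 1` (otherwise
`c ^ 2 = - M (2 c g(θ) - M r(θ))` has valuation `< 1`, but `IsCoprime c M`), so `v (θ - a i) = v θ` for all `i`.  If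
`v M = 1` then `v (a i - a j) = 1` for `i ≠ j`; if `v θ > 1` as before; if `v θ ≤ 1`, at most one `θ - a i` has valuation
`< 1`, and `M ^ 2 ∏ (θ - a i) = (M g(θ) + c) ^ 2`, so its valuation is an even power. -/
def S_LOC : Prop :=
  ∀ (n k : ℕ) (D : Dat2 n k) (K : Type) [Field K] [NumberField K] (θ : K) (c M : ℤ), M ≠ 0 →
    IsCoprime c M → (∀ i j, i ≠ j → D.a i - D.a j ∣ M) → aeval θ (hh D.g D.r c M) = 0 →
    (∀ i, θ - (D.a i : K) ≠ 0) → ∀ i j, ∀ v : IsDedekindDomain.HeightOneSpectrum (𝓞 K), ∃ z : ℤ,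
      v.valuation K ((θ - (D.a i : K)) / (θ - (D.a j : K))) = WithZero.exp (((2 : ℕ) : ℤ) * z)

/-- (IND) `t_IND : TaskRed → S_IND` (`W349.CG.red : TaskRed`; `TaskRed` is in `W289/CG/Stm`).  Apply `TaskRed` with
`ℓ = 2`, `N = k + 2`, exponents `e j` at `j < k`, `0` at `k`, `- ∑ e` at `k + 1`, and natural numbers of the same parity;
modulo `q` all factors but the one with the index `i` are squares (and `- 1`, as `q % 4 = 1`), the one with index `i` is not. -/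
def S_IND : Prop :=
  ∀ (n k : ℕ) (D : Dat2 n k) (K : Type) [Field K] [NumberField K] (θ : K) (c M : ℤ) (q : ℕ)
    [Fact q.Prime] (i : Fin k) (x : ℤ), Tst2 D c M i q x →
    (∃ (φ : K →+* ℚ_[q]) (z : ℤ_[q]), φ θ = (z : ℚ_[q]) ∧ PadicInt.toZMod z = (x : ZMod q)) →
    (∀ j, θ - (D.a j : K) ≠ 0) → ∀ (e : Fin k → ℤ) (y : K),
    (∏ j : Fin k, ((θ - (D.a j.castSucc.castSucc : K)) / (θ - (D.a (Fin.last (k + 1)) : K))) ^ e j =
        y ^ 2 ∨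
      ∏ j : Fin k, ((θ - (D.a j.castSucc.castSucc : K)) / (θ - (D.a (Fin.last (k + 1)) : K))) ^ e j =
        - y ^ 2) → (2 : ℤ) ∣ e i

/-- (T1) prescribed residue symbols.  By CRT choose `x > X₀` large and distinct large primes `p j` with `p j ∣ x - a j`
exactly once and `p j ∤ x - a i` for `i ≠ j` (`x ≡ a j + p j` mod `(p j) ^ 2`).  Then (Dirichlet,
`Nat.forall_exists_prime_gt_and_eq_mod`) choose `q ≡ 1` modulo `8` and modulo the part of `∏ (x - a j)` prime to the `p j`, and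
`q` modulo `p j` a residue iff `j ∉ J`; use quadratic reciprocity (`jacobiSym`, `jacobiSym.quadratic_reciprocity`,
`jacobiSym.mod_right`). -/
def S_T1 : Prop :=
  ∀ (k : ℕ) (a : Fin k → ℤ) (J : Finset (Fin k)) (X₀ : ℤ), Function.Injective a →
    ∃ x : ℤ, X₀ < x ∧ ∀ B : ℕ, ∃ q : ℕ, q.Prime ∧ B < q ∧ q % 4 = 1 ∧
      ∀ j, ((x - a j : ℤ) : ZMod q) ≠ 0 ∧ (IsSquare ((x - a j : ℤ) : ZMod q) ↔ j ∉ J)

/-- (T2) `q ≡ - 1` modulo `4 m`, `m = ∏ (x - a j)`: then every positive divisor of `m` is a square modulo `q`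
(`jacobiSym.mod_right`: `J(d | q)` depends on `q` modulo `4 d`, and `J(d | 4 d - 1) = 1`) -/
def S_T2 : Prop :=
  ∀ (k : ℕ) (a : Fin k → ℤ) (x : ℤ), (∀ j, a j < x) → ∀ B : ℕ, ∃ q : ℕ, q.Prime ∧ B < q ∧ q % 4 = 3 ∧
    ∀ j, IsSquare ((x - a j : ℤ) : ZMod q)

/-- (T3) `X₀` = maximum of the `a j`, `B = 2 + |f(x)| + |f'(x)|`, `y₀ ^ 2 = f(x) ≠ 0`, `s = ± y₀ - g(x)`: then
`2 s g + s ^ 2 - r = 0` at `x`, the derivative is `2 s g' - r' = ± 2 y₀ g'(x) - f'(x)`, not zero for one of the signs -/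
def S_T3 : Prop :=
  ∀ (n k : ℕ) (D : Dat2 n k), ∃ X₀ : ℤ, ∀ x : ℤ, X₀ < x → ∃ B : ℕ, ∀ (q : ℕ) [Fact q.Prime], B < q →
    IsSquare (∏ j, ((x - D.a j : ℤ) : ZMod q)) → ∃ s : ZMod q, ∀ c M : ℤ, ¬ (q : ℤ) ∣ M →
      (c : ZMod q) = s * (M : ZMod q) → (q : ℤ) ∣ (hh D.g D.r c M).eval x ∧
        ¬ (q : ℤ) ∣ (derivative (hh D.g D.r c M)).eval x

/-- (T4) `M = q₀ (2 |M₀|) ^ l`, `l` large; `c ≡ 1` modulo `2 q₀ M₀`, `c ≡ s q * M` modulo `q ∈ L`, in the interval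
`(α M, β M)`, which is longer than the modulus `2 q₀ |M₀| ∏ q` (CRT) -/
def S_T4 : Prop :=
  ∀ (M₀ : ℤ) (q₀ : ℕ) (L : Finset ℕ) (s : ∀ q : ℕ, ZMod q) (α β : ℝ), M₀ ≠ 0 → q₀.Prime →
    ¬ (q₀ : ℤ) ∣ 2 * M₀ → (∀ q ∈ L, q.Prime ∧ ¬ (q : ℤ) ∣ 2 * M₀ ∧ q ≠ q₀) → 0 < α → α < β →
    ∃ c M : ℤ, 0 < c ∧ 0 < M ∧ IsCoprime c M ∧ M₀ ∣ M ∧ (q₀ : ℤ) ∣ M ∧ ¬ (q₀ : ℤ) ^ 2 ∣ M ∧
      ¬ (q₀ : ℤ) ∣ 2 * c ∧ α * M < c ∧ (c : ℝ) < β * M ∧
      ∀ q ∈ L, ¬ (q : ℤ) ∣ M ∧ (c : ZMod q) = s q * (M : ZMod q)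

/-- (CH) `t_CH : S_T1 → S_T2 → S_T3 → S_T4 → S_CH`: `M₀` = product of the `a i - a j`, `i ≠ j`; `q₀ > N` not dividing
`2 M₀`; one prime for each `i : Fin k` (T1 with `J = {i, k}`, T3) and one for T2, all different, larger than `q₀` and
`|2 M₀|` (choose them one after the other, or all larger than the previous ones), then T4. -/
def S_CH : Prop :=
  ∀ (n k : ℕ) (D : Dat2 n k) (α β : ℝ) (N : ℕ), 0 < α → α < β →
    ∃ (c M : ℤ) (q₀ : ℕ), 0 < c ∧ 0 < M ∧ IsCoprime c M ∧ (∀ i j, i ≠ j → D.a i - D.a j ∣ M) ∧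
      q₀.Prime ∧ N < q₀ ∧ (q₀ : ℤ) ∣ M ∧ ¬ (q₀ : ℤ) ^ 2 ∣ M ∧ ¬ (q₀ : ℤ) ∣ 2 * c ∧ α * M < c ∧
      (c : ℝ) < β * M ∧ (∀ i : Fin k, ∃ (q : ℕ) (x : ℤ), Tst2 D c M i q x) ∧
      ∃ (q : ℕ) (x : ℤ), q.Prime ∧ q % 4 = 3 ∧ (q : ℤ) ∣ (hh D.g D.r c M).eval x ∧
        ¬ (q : ℤ) ∣ (derivative (hh D.g D.r c M)).eval x

/-- (R1) the square root with a parameter `ε`: over `R = ℚ[ε]` (2 is invertible) every monic `f` of degree `2 n` is
`g ^ 2 + r`, `g` monic of degree `n`, `deg r < n` (correct the coefficients of `g` from above, one after the other);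
specialise; at `ε = 0` `f = A ^ 2`, and `(A - g) (A + g) = r` gives `g = A`. -/
def S_R1 : Prop :=
  ∀ (n : ℕ) (a : Fin n → ℤ), ∃ g r : Fin n → ℚ[X],
    (∀ ε : ℚ, (∏ i, (X - C (a i : ℚ))) * ∏ i, (X - C ((a i : ℚ) + ε)) =
      (X ^ n + ∑ j : Fin n, C ((g j).eval ε) * X ^ (j : ℕ)) ^ 2 +
        ∑ j : Fin n, C ((r j).eval ε) * X ^ (j : ℕ)) ∧
    (∀ j : Fin n, (g j).eval 0 = (∏ i, (X - C (a i : ℚ))).coeff j) ∧ ∀ j, (r j).eval 0 = 0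

/-- (R2) the number of real roots is stable under small perturbations: outside `[- R, R]` no `Q` has a root; around each
root of `P` a small interval with `P' ≠ 0` on it and a change of sign; `|P|` has a positive minimum on the rest of
`[- R, R]` -/
def S_R2 : Prop :=
  ∀ P : ℝ[X], P.Monic → (∀ x : ℝ, P.eval x = 0 → (derivative P).eval x ≠ 0) →
    ∃ δ : ℝ, 0 < δ ∧ ∀ Q : ℝ[X], Q.Monic → Q.natDegree = P.natDegree →
      (∀ j, |Q.coeff j - P.coeff j| < δ) →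
      {x : ℝ | Q.eval x = 0}.ncard = {x : ℝ | P.eval x = 0}.ncard

/-- (R3) `t_R3 : S_R1 → S_R2 → S_R3`: choose `v₀ ∈ (v₁, v₂)` such that `- v₀` is not a critical value of
`A = ∏ (X - a i)`, `P = A + v₀`, `σ` near `2 v₀`, `b i = a i + ε` with `0 < ε < 1` small; for `σ > 0` the equation is
`g + σ / 2 - r / (2 σ) = 0`, whose coefficients are close to those of `P`. -/
def S_R3 : Prop :=
  ∀ (n r₁ : ℕ) (a : Fin n → ℤ) (v₁ v₂ : ℝ), 1 ≤ n → Function.Injective a → 0 < v₁ → v₁ < v₂ →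
    (∀ v : ℝ, v₁ < v → v < v₂ → {x : ℝ | ∏ i, (x - (a i : ℝ)) = - v}.ncard = r₁) →
    ∃ (b : Fin n → ℚ) (g r : ℚ[X]) (α β : ℝ),
      Function.Injective (Sum.elim (fun i => (a i : ℚ)) b) ∧ g.Monic ∧ g.natDegree = n ∧
      r.degree < n ∧ (∏ i, (X - C (a i : ℚ))) * ∏ i, (X - C (b i)) = g ^ 2 + r ∧ 0 < α ∧ α < β ∧
      ∀ σ : ℝ, α < σ → σ < β → {x : ℝ | 2 * σ * aeval x g + σ ^ 2 - aeval x r = 0}.ncard = r₁

/-- (R4) multiply the roots by a common denominator `d` of the `a i` and of all coefficients: `g` becomes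
`∑ d ^ (n - j) g_j X ^ j`, `r` becomes `∑ d ^ (2 n - j) r_j X ^ j`, `σ` becomes `d ^ n σ` -/
def S_R4 : Prop :=
  ∀ (n k r₁ : ℕ) (a : Fin (k + 2) → ℚ) (g r : ℚ[X]) (α β : ℝ), k + 2 = 2 * n →
    Function.Injective a → g.Monic → g.natDegree = n → r.degree < n →
    ∏ i, (X - C (a i)) = g ^ 2 + r → 0 < α → α < β →
    (∀ σ : ℝ, α < σ → σ < β → {x : ℝ | 2 * σ * aeval x g + σ ^ 2 - aeval x r = 0}.ncard = r₁) →
    ∃ (D : Dat2 n k) (α' β' : ℝ), 0 < α' ∧ α' < β' ∧ ∀ σ : ℝ, α' < σ → σ < β' →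
      {x : ℝ | 2 * σ * aeval x D.g + σ ^ 2 - aeval x D.r = 0}.ncard = r₁

end Pool.Agent.J4H20.TR
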