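import Pool.Agent.W289.CG.Fin
import Pool.Agent.N53.CL.Fields
import Pool.Agent.J4H20.TR.Stm

/-!
# Project TR2: the fields
-/

set_option autoImplicit false

namespace Pool.Agent.J4H20.TR

open Polynomial NumberField nonZeroDivisors Pool.Agent.W289.CG

lemma hh_coeff (g r : ℤ[X]) (c M : ℤ) (j : ℕ) (hj : 1 ≤ j) :
    (hh g r c M).coeff j = 2 * c * M * g.coeff j - M ^ 2 * r.coeff j := by
  unfold hh
  rw [coeff_add, coeff_sub, coeff_C_mul, coeff_C_mul, coeff_C_of_ne_zero (by omega), add_zero]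

lemma hh_coeff_zero (g r : ℤ[X]) (c M : ℤ) :
    (hh g r c M).coeff 0 = 2 * c * M * g.coeff 0 - M ^ 2 * r.coeff 0 + c ^ 2 := by
  unfold hh
  rw [coeff_add, coeff_sub, coeff_C_mul, coeff_C_mul, coeff_C_zero]

lemma hh_natDegree {n k : ℕ} (hn : 1 ≤ n) (D : Dat2 n k) (c M : ℤ) (h : 2 * c * M ≠ 0) :
    (hh D.g D.r c M).natDegree = n ∧ (hh D.g D.r c M).coeff n = 2 * c * M := by
  have h1 : (hh D.g D.r c M).coeff n = 2 * c * M := by
    rw [hh_coeff _ _ _ _ _ hn, coeff_eq_zero_of_degree_lt D.hr, mul_zero, sub_zero]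
    have := D.hg.coeff_natDegree
    rw [D.hgn] at this
    rw [this, mul_one]
  refine ⟨le_antisymm ?_ (le_natDegree_of_ne_zero (by rw [h1]; exact h)), h1⟩
  rw [natDegree_le_iff_coeff_eq_zero]
  intro j hj
  rw [hh_coeff _ _ _ _ _ (by omega),
    coeff_eq_zero_of_degree_lt (lt_trans D.hr (by exact_mod_cast hj)),
    coeff_eq_zero_of_natDegree_lt (by rw [D.hgn]; exact hj)]
  simp

lemma hh_aeval {R : Type} [CommRing R] (g r : ℤ[X]) (c M : ℤ) (x : R) :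
    aeval x (hh g r c M) = 2 * c * M * aeval x g - M ^ 2 * aeval x r + c ^ 2 := by
  have h2 : aeval x (C (2 * c * M) : ℤ[X]) = 2 * c * M := by
    rw [aeval_C]; simp
  have h3 : aeval x (C (M ^ 2) : ℤ[X]) = (M : R) ^ 2 := by
    rw [aeval_C]; simp
  have h4 : aeval x (C (c ^ 2) : ℤ[X]) = (c : R) ^ 2 := by
    rw [aeval_C]; simp
  unfold hh
  rw [map_add, map_sub, _root_.map_mul (aeval x) (C (2 * c * M)) g,
    _root_.map_mul (aeval x) (C (M ^ 2)) r, h2, h3, h4]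

theorem core2 (hIRR : S_IRR) (hDISC : S_DISC) (hEMB : S_EMB) (hLOC : S_LOC) (hIND : S_IND)
    (hCH : S_CH) {n k r₁ : ℕ} (hn : 2 ≤ n) (D : Dat2 n k) (α β : ℝ) (hα : 0 < α) (hαβ : α < β)
    (hcount : ∀ σ : ℝ, α < σ → σ < β →
      {x : ℝ | 2 * σ * aeval x D.g + σ ^ 2 - aeval x D.r = 0}.ncard = r₁) (N : ℕ) :
    ∃ (K : Type) (_ : Field K) (_ : NumberField K), Module.finrank ℚ K = n ∧
      InfinitePlace.nrRealPlaces K = r₁ ∧ (N : ℤ) < |discr K| ∧
      ∀ R, R + Units.rank K ≤ k →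
        ∃ f : Multiplicative (Fin R → ZMod 2) →* ClassGroup (𝓞 K), Function.Injective f := by
  obtain ⟨c, M, q₀, hc, hM, hcop, hdiff, hq₀, hN, hqM, hqM2, hqc, h1, h2, htest, hq4⟩ :=
    hCH n k D α β N hα hαβ
  have hqp : Prime (q₀ : ℤ) := Nat.prime_iff_prime_int.1 hq₀
  have hcM : 2 * c * M ≠ 0 := by positivity
  obtain ⟨hdeg, hlead⟩ := hh_natDegree (by omega) D c M hcM
  have hco : ∀ j, 1 ≤ j → (q₀ : ℤ) ∣ (hh D.g D.r c M).coeff j := by
    intro j hj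
    rw [hh_coeff _ _ _ _ _ hj]
    refine dvd_sub ?_ ?_
    · exact Dvd.dvd.mul_right (Dvd.dvd.mul_left hqM _) _
    · exact Dvd.dvd.mul_right (dvd_pow hqM (by norm_num)) _
  have hcn : ¬ (q₀ : ℤ) ^ 2 ∣ (hh D.g D.r c M).coeff n := by
    rw [hlead]
    intro h
    have h3 : IsCoprime ((q₀ : ℤ) ^ 2) (2 * c) :=
      ((Irreducible.coprime_iff_not_dvd hqp.irreducible).2 hqc).pow_left
    exact hqM2 (h3.dvd_of_dvd_mul_left h)
  have hc0 : ¬ (q₀ : ℤ) ∣ (hh D.g D.r c M).coeff 0 := by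
    rw [hh_coeff_zero]
    intro h
    have h3 : (q₀ : ℤ) ∣ 2 * c * M * D.g.coeff 0 - M ^ 2 * D.r.coeff 0 := by
      refine dvd_sub ?_ ?_
      · exact Dvd.dvd.mul_right (Dvd.dvd.mul_left hqM _) _
      · exact Dvd.dvd.mul_right (dvd_pow hqM (by norm_num)) _
    have h4 := hqp.dvd_of_dvd_pow ((dvd_add_right h3).1 h)
    exact hqc (Dvd.dvd.mul_left h4 _)
  have hirr := hIRR _ n q₀ (by omega) hdeg hq₀ hco hcn hc0
  obtain ⟨K, hK1, hK2, θ, hfr, hθ, hgen⟩ := exists_field _ hirr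
  rw [natDegree_map_eq_of_injective (RingHom.injective_int _), hdeg] at hfr
  have hθ' : aeval θ (hh D.g D.r c M) = 0 := by
    have h3 : (Int.castRingHom ℚ) = algebraMap ℤ ℚ := rfl
    rw [h3, aeval_map_algebraMap] at hθ
    exact hθ
  -- `θ` is not one of the `a i`
  have hf : ∀ (R : Type) [CommRing R] (x : R), ∏ i, (x - (D.a i : R)) = aeval x D.g ^ 2 + aeval x D.r := by
    intro R _ x
    have h3 := congrArg (aeval x) D.hf
    rw [map_prod, map_add, map_pow] at h3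
    rw [← h3]
    refine Finset.prod_congr rfl fun i _ => ?_
    simp
  have hpt : ∀ i, θ - (D.a i : K) ≠ 0 := by
    intro i h0
    have h3 : ∏ j, (θ - (D.a j : K)) = 0 := Finset.prod_eq_zero (Finset.mem_univ i) h0
    rw [hf] at h3
    rw [hh_aeval] at hθ'
    have h4 : ((M : K) * aeval θ D.g + c) ^ 2 = 0 := by
      linear_combination hθ' + (M : K) ^ 2 * h3
    have h5 : (M : K) * aeval θ D.g + c = 0 := pow_eq_zero_iff (by norm_num) |>.1 h4
    have h6 : θ = ((D.a i : ℤ) : K) := sub_eq_zero.1 h0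
    have h7 : aeval θ D.g = ((D.g.eval (D.a i) : ℤ) : K) := by
      rw [h6, ← eq_intCast (algebraMap ℤ K), aeval_algebraMap_apply]
      simp
    rw [h7] at h5
    have h8 : M * D.g.eval (D.a i) + c = 0 := by exact_mod_cast h5
    have h9 : (q₀ : ℤ) ∣ c := by
      have h10 : (q₀ : ℤ) ∣ M * D.g.eval (D.a i) := Dvd.dvd.mul_right hqM _
      exact (dvd_add_right h10).1 (h8 ▸ dvd_zero _)
    exact hqc (Dvd.dvd.mul_left h9 _)
  refine ⟨K, hK1, hK2, hfr, ?_, ?_, ?_⟩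
  · rw [W240.CG.pl K _ θ hirr hθ hgen]
    have hMR : (0 : ℝ) < M := by exact_mod_cast hM
    rw [← hcount ((c : ℝ) / M) ((lt_div_iff₀ hMR).2 h1) ((div_lt_iff₀ hMR).2 h2)]
    congr 1
    ext x
    have h3 : (Int.castRingHom ℚ) = algebraMap ℤ ℚ := rfl
    simp only [Set.mem_ofPred_eq]
    rw [h3, aeval_map_algebraMap, hh_aeval]
    have h4 : 2 * ((c : ℝ) / M) * aeval x D.g + ((c : ℝ) / M) ^ 2 - aeval x D.r =
        (2 * c * M * aeval x D.g - M ^ 2 * aeval x D.r + c ^ 2) / M ^ 2 := by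
      field_simp
      ring
    rw [h4, div_eq_zero_iff]
    have h5 : (M : ℝ) ^ 2 ≠ 0 := by positivity
    simp [h5]
  · have h3 := hDISC K _ n q₀ θ hn hdeg hfr hq₀ hco hcn hc0 hθ'
    have h4 : (q₀ : ℤ) ≤ |discr K| := Int.le_of_dvd (abs_pos.2 (discr_ne_zero K))
      ((dvd_abs _ _).2 h3)
    have h5 : (N : ℤ) < q₀ := by exact_mod_cast hN
    linarith
  · intro R hR
    refine W930.CG.cls W240.CG.grp W125.CG.uni K k 2 R le_rfl hR
      (fun j => Units.mk0 ((θ - (D.a j.castSucc.castSucc : K)) / (θ - (D.a (Fin.last (k + 1)) : K)))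
        (div_ne_zero (hpt _) (hpt _))) ?_ ?_ ?_
    · intro i
      refine W64.CG.val K 2 _ (by omega) fun v => ?_
      exact hLOC n k D K θ c M hM.ne' hcop hdiff hθ' hpt _ _ v
    · intro ℓ hℓ hℓ2
      have h3 : ℓ = 2 := (Nat.prime_dvd_prime_iff_eq hℓ Nat.prime_two).1 hℓ2
      subst h3
      intro e y he i
      obtain ⟨q, x, hT⟩ := htest i
      have : Fact q.Prime := ⟨hT.prime⟩
      have hφ := hEMB K θ _ n q x (by omega) hdeg hfr hgen hθ' hT.root hT.simple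
      refine hIND n k D K θ c M q i x hT hφ hpt e y ?_
      rcases he with he | he
      · left
        have := congrArg (fun u : Kˣ => (u : K)) he
        simpa using this
      · right
        have := congrArg (fun u : Kˣ => (u : K)) he
        simpa using this
    · intro ℓ hℓ hℓ2
      have h3 : ℓ = 2 := (Nat.prime_dvd_prime_iff_eq hℓ Nat.prime_two).1 hℓ2
      subst h3
      refine ⟨fun h => absurd rfl h, fun _ => ?_⟩
      rintro ⟨ζ, hζ⟩
      obtain ⟨q, x, hq, hq3, hr, hs⟩ := hq4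
      have : Fact q.Prime := ⟨hq⟩
      obtain ⟨φ, -, -, -⟩ := hEMB K θ _ n q x (by omega) hdeg hfr hgen hθ' hr hs
      have h5 := W349.CG.mu q 4 (by
        intro h
        have h6 : q ∣ 2 := hq.dvd_of_dvd_pow (show q ∣ 2 ^ 2 from h)
        have h7 := (Nat.prime_dvd_prime_iff_eq hq Nat.prime_two).1 h6
        omega) ⟨φ ζ, hζ.map_of_injective φ.injective⟩
      omega

theorem dat_exists (hR3 : S_R3) (hR4 : S_R4) (n r₁ r₂ : ℕ) (hn : 3 ≤ n) (hr : r₁ + 2 * r₂ = n) :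
    ∃ (k : ℕ) (D : Dat2 n k) (α β : ℝ), 0 < α ∧ α < β ∧ ∀ σ : ℝ, α < σ → σ < β →
      {x : ℝ | 2 * σ * aeval x D.g + σ ^ 2 - aeval x D.r = 0}.ncard = r₁ := by
  obtain ⟨D, v₁, v₂, h1, h2, h3⟩ := N53.CL.data_all n r₁ r₂ hn hr
  obtain ⟨b, g, r, α, β, h4, h5, h6, h7, h8, h9, h10, h11⟩ :=
    hR3 n r₁ D.a v₁ v₂ (by omega) D.ha h1 h2 h3
  have hk : 2 * n - 2 + 2 = n + n := by omega
  let e : Fin (2 * n - 2 + 2) ≃ Fin n ⊕ Fin n := (finCongr hk).trans finSumFinEquiv.symm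
  obtain ⟨D', α', β', k1, k2, k3⟩ := hR4 n (2 * n - 2) r₁
    (fun i => Sum.elim (fun i => (D.a i : ℚ)) b (e i)) g r α β (by omega)
    (h4.comp e.injective) h5 h6 h7 (by
      rw [Equiv.prod_comp e (fun i => X - C (Sum.elim (fun i => (D.a i : ℚ)) b i)),
        Fintype.prod_sum_type, ← h8]
      simp) h9 h10 h11
  exact ⟨_, D', α', β', k1, k2, k3⟩

end Pool.Agent.J4H20.TR
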